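import Pool.Agent.H70.OQ.Targets

/-!
Module CLH: the classification of the strings.
-/

set_option autoImplicit false

namespace Pool.Agent.H48.OQ.CLH

open Finset Pool.Agent.H6.NB Pool.Agent.H70.OQ

theorem key_inj {s s' : List Bool} (h : key s = key s') : s = s' := by
  unfold key at h
  exact (List.cons.inj (List.cons.inj h).2).2

theorem blk_ne_key (s s' : List Bool) (i : ℕ) (f : Bool) (z : List Bool) :
    Pool.Agent.H6.NB.blk s i f z ≠ key s' := by
  intro h
  unfold Pool.Agent.H6.NB.blk key at h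
  have := (List.cons.inj (List.cons.inj h).2).1
  exact absurd this (by decide)

theorem bas_ne_key (u s' : List Bool) : false :: u ≠ key s' := by
  intro h
  unfold key at h
  have := (List.cons.inj h).1
  exact absurd this (by decide)

theorem bas_ne_blk (u s : List Bool) (i : ℕ) (f : Bool) (z : List Bool) :
    false :: u ≠ Pool.Agent.H6.NB.blk s i f z := by
  intro h
  unfold Pool.Agent.H6.NB.blk at h
  have := (List.cons.inj h).1
  exact absurd this (by decide)

theorem blk_inj (h1 : Pool.Agent.H6.NB.T_COD) {s s' : List Bool} {i i' : ℕ} {f f' : Bool}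
    {z z' : List Bool}
    (h : Pool.Agent.H6.NB.blk s i f z = Pool.Agent.H6.NB.blk s' i' f' z') :
    s = s' ∧ i = i' ∧ f = f' ∧ z = z' := by
  unfold Pool.Agent.H6.NB.blk at h
  have h2 := (List.cons.inj (List.cons.inj h).2).2
  obtain ⟨a, b, c⟩ := h1.1 _ _ _ _ _ _ h2
  have e1 : i = i' ∧ f = f' := by
    cases f <;> cases f' <;> simp at c ⊢ <;> omega
  exact ⟨a, e1.1, e1.2, b⟩

theorem clh (h1 : T_NST) (h2 : Pool.Agent.H6.NB.T_COD) : T_CLH := by
  intro k n a o
  have c1 : ∀ p : Nn n k, clg k n a o (false :: nstr n k p) = .bas p := by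
    intro p
    unfold clg
    have h : ∃ q : Nn n k, false :: nstr n k p = false :: nstr n k q := ⟨p, rfl⟩
    rw [dif_pos h]
    have e1 := (h1 n k).2.1 _ _ (List.cons.inj h.choose_spec).2
    rw [← e1]
  have c2 : ∀ s : Om n a, clg k n a o (key s.1) = .key s := by
    intro s
    unfold clg
    rw [dif_neg, dif_pos (⟨s, rfl⟩ : ∃ s' : Om n a, key s.1 = key s'.1)]
    · have h : ∃ s' : Om n a, key s.1 = key s'.1 := ⟨s, rfl⟩
      have e := key_inj h.choose_spec
      have e' : s = h.choose := Subtype.ext e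
      exact congrArg _ e'.symm
    · rintro ⟨p, hp⟩
      exact bas_ne_key _ _ hp.symm
  have c3 : ∀ (s : Om n a) (i : Fin (ns s.1)) (v : VV (qs s.1)),
      clg k n a o (Pool.Agent.H6.NB.blk s.1 i v.1 (List.ofFn v.2)) = .blk s i v := by
    intro s i v
    unfold clg
    have h : ∃ p : Σ s : Om n a, Fin (ns s.1) × VV (qs s.1),
        Pool.Agent.H6.NB.blk s.1 i v.1 (List.ofFn v.2) =
          Pool.Agent.H6.NB.blk p.1.1 p.2.1 p.2.2.1 (List.ofFn p.2.2.2) :=
      ⟨⟨s, i, v⟩, rfl⟩
    rw [dif_neg, dif_neg, dif_pos h]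
    · have key2 : ∀ p : Σ s : Om n a, Fin (ns s.1) × VV (qs s.1),
          Pool.Agent.H6.NB.blk s.1 i v.1 (List.ofFn v.2) =
            Pool.Agent.H6.NB.blk p.1.1 p.2.1 p.2.2.1 (List.ofFn p.2.2.2) →
          (PosG.blk p.1 p.2.1 p.2.2 : Cg k n a) = .blk s i v := by
        rintro ⟨s', i', v'⟩ hp
        obtain ⟨e1, e2, e3, e4⟩ := blk_inj h2 hp
        have e5 : s = s' := Subtype.ext e1
        subst e5
        have e6 : i = i' := Fin.ext e2
        have e7 : v.2 = v'.2 := List.ofFn_injective e4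
        have e8 : v = v' := Prod.ext e3 e7
        subst e6
        subst e8
        rfl
      exact key2 h.choose h.choose_spec
    · rintro ⟨p, hp⟩
      exact blk_ne_key _ _ _ _ _ hp
    · rintro ⟨p, hp⟩
      exact bas_ne_blk _ _ _ _ _ hp.symm
  refine ⟨c1, c2, c3, ?_⟩
  intro w
  by_cases e1 : ∃ p : Nn n k, w = false :: nstr n k p
  · exact Or.inl e1
  by_cases e2 : ∃ s : Om n a, w = key s.1
  · exact Or.inr (Or.inl e2)
  by_cases e3 : ∃ (s : Om n a) (i : Fin (ns s.1)) (v : VV (qs s.1)),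
      w = Pool.Agent.H6.NB.blk s.1 i v.1 (List.ofFn v.2)
  · exact Or.inr (Or.inr (Or.inl e3))
  refine Or.inr (Or.inr (Or.inr ?_))
  unfold clg
  rw [dif_neg e1, dif_neg e2, dif_neg]
  rintro ⟨p, hp⟩
  exact e3 ⟨p.1, p.2.1, p.2.2, hp⟩

end Pool.Agent.H48.OQ.CLH
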