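import Pool.Agent.H70.OQ.Targets

/-!
Module FMG: the instances as formulas.
-/

set_option autoImplicit false

namespace Pool.Agent.H48.OQ.FMG

open Finset Pool.Agent.H6.NB Pool.Agent.H70.OQ

lemma key_len (s : List Bool) : (key s).length = s.length + 2 := by
  simp [key]

lemma blk_len (h5 : Pool.Agent.H6.NB.T_COD) (s z : List Bool) (i : ℕ) (f : Bool) :
    s.length ≤ (Pool.Agent.H6.NB.blk s i f z).length := by
  unfold Pool.Agent.H6.NB.blk
  simp only [List.length_cons, h5.2]
  omega

lemma low_clg (h1 : T_CLH) (h4 : Pool.Agent.H6.NB.T_LVL) (h5 : Pool.Agent.H6.NB.T_COD)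
    {k n a : ℕ} (hn : 2 ≤ n) (o : List Bool → Bool)
    (s : Om n (2 ^ a)) (w : List Bool) (m : ℕ) (hm : m ^ 2 ≤ s.1.length) (hw : w.length ≤ m) :
    LwG (fun s : Om n (2 ^ a) => lv n s.1) (lv n s.1) (clg k n (2 ^ a) o w) := by
  have hlt : ∀ s' : Om n (2 ^ a), s'.1.length ≤ m → lv n s'.1 < lv n s.1 := by
    intro s' hs'
    exact (h4 n a hn).1 s.1 s'.1 s'.2.1 (le_trans (Nat.pow_le_pow_left hs' 2) hm)
  rcases (h1 k n (2 ^ a) o).2.2.2 w with ⟨p, h⟩ | ⟨s', h⟩ | ⟨s', i, v, h⟩ | h
  · rw [h, (h1 k n (2 ^ a) o).1 p]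
    trivial
  · have hl := key_len s'.1
    rw [← h] at hl
    rw [h, (h1 k n (2 ^ a) o).2.1 s']
    exact hlt s' (by omega)
  · have hl := blk_len h5 s'.1 (List.ofFn v.2) i v.1
    rw [← h] at hl
    rw [h, (h1 k n (2 ^ a) o).2.2.1 s' i v]
    exact hlt s' (by omega)
  · rw [h]
    trivial

/-- the value of a decision tree depends only on the short strings -/
lemma evc (T : DT) (m : ℕ) (O O' : List Bool → Bool) (hT : T.Short m)
    (h : ∀ w, w.length ≤ m → O w = O' w) : T.eval O = T.eval O' := by
  induction T with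
  | leaf b => rfl
  | node w l r ihl ihr =>
    obtain ⟨h1, h2, h3⟩ := hT
    simp only [DT.eval]
    rw [h w h1, ihl h2, ihr h3]

/-- congruence -/
lemma alt_congr (R : List Bool → Prop) (k : ℕ) : ∀ (b : Bool) (P P' : List (List Bool) → Prop),
    (∀ ws : List (List Bool), ws.length = k → (∀ w ∈ ws, R w) → (P ws ↔ P' ws)) →
    (Alt R b k P ↔ Alt R b k P') := by
  induction k with
  | zero =>
    intro b P P' h
    cases b <;> exact h [] rfl (by simp)
  | succ k ih =>
    intro b P P' h
    have h' : ∀ b' w, R w → (Alt R b' k (fun ws => P (w :: ws)) ↔ Alt R b' k (fun ws => P' (w :: ws))) := by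
      intro b' w hw
      refine ih b' _ _ (fun ws hl hws => h (w :: ws) (by simp [hl]) ?_)
      intro w' hw'
      rcases List.mem_cons.1 hw' with rfl | h2
      · exact hw
      · exact hws w' h2
    cases b
    · exact forall_congr' fun w => imp_congr_right fun hw => h' true w hw
    · exact exists_congr fun w => and_congr_right fun hw => h' false w hw

/-- negation of a tree -/
def ng {V : Type} : Pool.Agent.H68.AC.DT V → Pool.Agent.H68.AC.DT V
  | .leaf b => .leaf (!b)
  | .node v l r => .node v (ng l) (ng r)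

lemma ng_depth {V : Type} (T : Pool.Agent.H68.AC.DT V) : (ng T).depth = T.depth := by
  induction T with
  | leaf b => rfl
  | node v l r ihl ihr => simp only [ng, Pool.Agent.H68.AC.DT.depth, ihl, ihr]

lemma ng_eval {V : Type} (y : V → Bool) (T : Pool.Agent.H68.AC.DT V) :
    (ng T).eval y = !(T.eval y) := by
  induction T with
  | leaf b => rfl
  | node v l r ihl ihr =>
    simp only [ng, Pool.Agent.H68.AC.DT.eval, ihl, ihr]
    cases y v <;> rfl

open Classical in
lemma alt_fm {V : Type} (R : List Bool → Prop) (t : ℕ) (Ws : List (List Bool))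
    (hW : Ws.length ≤ 2 ^ t) (hWs : ∀ w, R w → w ∈ Ws) (k : ℕ) :
    ∀ P : List (List Bool) → (V → Bool) → Prop,
    (∀ ws : List (List Bool), ws.length = k → (∀ w ∈ ws, R w) →
      ∃ T : Pool.Agent.H68.AC.DT V, T.depth ≤ t ∧ ∀ y, (T.eval y = true ↔ P ws y)) →
    Fm (2 ^ t) t k (fun y => decide (Alt R true k (fun ws => P ws y))) ∧
    Fm (2 ^ t) t k (fun y => !decide (Alt R false k (fun ws => P ws y))) := by
  induction k with
  | zero =>
    intro P h
    obtain ⟨T, hT, hT2⟩ := h [] rfl (by simp)
    constructor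
    · refine ⟨T, hT, fun y => ?_⟩
      change T.eval y = decide (P [] y)
      by_cases hp : P [] y
      · rw [(hT2 y).2 hp]; simp [hp]
      · have : T.eval y = false := by
          rw [← Bool.not_eq_true]; exact fun e => hp ((hT2 y).1 e)
        rw [this]; simp [hp]
    · refine ⟨ng T, by rw [ng_depth]; exact hT, fun y => ?_⟩
      change (ng T).eval y = !decide (P [] y)
      rw [ng_eval]
      by_cases hp : P [] y
      · rw [(hT2 y).2 hp]; simp [hp]
      · have : T.eval y = false := by
          rw [← Bool.not_eq_true]; exact fun e => hp ((hT2 y).1 e)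
        rw [this]; simp [hp]
  | succ k ih =>
    intro P h
    set L : List (List Bool) := Ws.filter (fun w => decide (R w)) with hL
    have hLlen : L.length ≤ 2 ^ t := le_trans (List.length_filter_le _ _) hW
    have hLmem : ∀ w, w ∈ L ↔ R w := by
      intro w
      rw [hL, List.mem_filter, decide_eq_true_eq]
      exact ⟨fun h => h.2, fun h => ⟨hWs w h, h⟩⟩
    have ih' : ∀ w, R w → _ := fun w hw => ih (fun ws y => P (w :: ws) y) (by
      intro ws hl hws
      refine h (w :: ws) (by simp [hl]) ?_
      intro w' hw'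
      rcases List.mem_cons.1 hw' with rfl | h2
      · exact hw
      · exact hws w' h2)
    have hget : ∀ i : Fin L.length, R (L.get i) := fun i => (hLmem _).1 (List.get_mem L i)
    constructor
    · refine ⟨L.length, fun i y => !decide (Alt R false k (fun ws => P (L.get i :: ws) y)),
        fun _ => false, hLlen, fun i => (ih' _ (hget i)).2, fun y => ?_⟩
      rw [decide_eq_true_eq]
      constructor
      · rintro ⟨w, hw, hA⟩
        obtain ⟨i, hi⟩ := List.mem_iff_get.1 ((hLmem w).2 hw)
        refine ⟨i, ?_⟩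
        change (!decide (Alt R false k (fun ws => P (L.get i :: ws) y))) = false
        rw [hi]
        simp [hA]
      · rintro ⟨i, hi⟩
        refine ⟨L.get i, hget i, ?_⟩
        simpa using hi
    · refine ⟨L.length, fun i y => decide (Alt R true k (fun ws => P (L.get i :: ws) y)),
        fun _ => false, hLlen, fun i => (ih' _ (hget i)).1, fun y => ?_⟩
      rw [Bool.not_eq_true', decide_eq_false_iff_not]
      constructor
      · intro hA
        have hA' : ¬ ∀ w, R w → Alt R true k fun ws => P (w :: ws) y := hA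
        push Not at hA'
        obtain ⟨w, hw, hA''⟩ := hA'
        obtain ⟨i, hi⟩ := List.mem_iff_get.1 ((hLmem w).2 hw)
        refine ⟨i, ?_⟩
        change decide (Alt R true k (fun ws => P (L.get i :: ws) y)) = false
        rw [hi, decide_eq_false_iff_not]
        exact hA''
      · rintro ⟨i, hi⟩ hA
        rw [decide_eq_false_iff_not] at hi
        exact hi (hA (L.get i) (hget i))

/-- conversion of trees -/
def cv {V : Type} (c : List Bool → V) : DT → Pool.Agent.H68.AC.DT V
  | .leaf b => .leaf b
  | .node w l r => .node (c w) (cv c l) (cv c r)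

lemma cv_depth {V : Type} (c : List Bool → V) (T : DT) : (cv c T).depth = T.depth := by
  induction T with
  | leaf b => rfl
  | node v l r ihl ihr => simp only [cv, Pool.Agent.H68.AC.DT.depth, DT.depth, ihl, ihr]

lemma cv_eval {V : Type} (c : List Bool → V) (y : V → Bool) (T : DT) :
    (cv c T).eval y = T.eval (fun w => y (c w)) := by
  induction T with
  | leaf b => rfl
  | node v l r ihl ihr =>
    simp only [cv, Pool.Agent.H68.AC.DT.eval, DT.eval, ihl, ihr]
    by_cases hy : y (c v) = true
    · rw [if_pos hy, hy]; rfl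
    · rw [if_neg hy]
      rw [Bool.not_eq_true] at hy
      rw [hy]; rfl

open Classical in
theorem fmg (h1 : T_CLH) (h2 : Pool.Agent.H6.NB.T_COD) (h3 : Pool.Agent.H6.NB.T_LVL)
    (h4 : Pool.Agent.H6.NB.T_FIS) : T_FMG := by
  intro k prog n a t o hprog hn hnt
  have hlen : ∀ s : Om n (2 ^ a), s.1.length < t ^ 2 := fun s => lt_of_lt_of_le s.2.2 hnt
  have ht : 1 ≤ t := by
    by_contra h
    have ht0 : t = 0 := by omega
    subst ht0
    have : 0 < n ^ 2 ^ a := by positivity
    omega
  obtain ⟨Ws, hW1, hW2⟩ := h4.1 (t - 1)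
  rw [Nat.sub_add_cancel ht] at hW1
  have hsq : ∀ (s : Om n (2 ^ a)) (x : ℕ), x ^ 2 ≤ s.1.length → x < t := by
    intro s x hx
    by_contra hcon
    push Not at hcon
    have := Nat.pow_le_pow_left hcon 2
    have := hlen s
    omega
  refine ⟨fun s y => decide (acck k prog s.1 (fun w => y (clg k n (2 ^ a) o w))), ⟨?_, ?_, ?_⟩, ?_⟩
  · intro s
    have := (alt_fm (V := Cg k n (2 ^ a)) (fun w => w.length ^ 2 ≤ s.1.length) t Ws hW1
      (fun w hw => hW2 w (by have := hsq s _ hw; omega)) k
      (fun ws y => (prog s.1 ws).eval (fun w => y (clg k n (2 ^ a) o w)) = true) (by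
        intro ws hl hws
        refine ⟨cv (clg k n (2 ^ a) o) (prog s.1 ws), ?_, fun y => ?_⟩
        · rw [cv_depth]
          exact (hsq s _ (hprog s.1 ws hl hws).1).le
        · rw [cv_eval])).1
    exact this
  · intro s y y' hy
    rw [decide_eq_decide]
    unfold acck
    refine alt_congr _ k true _ _ (fun ws hl hws => ?_)
    obtain ⟨-, m, hm, hsh⟩ := hprog s.1 ws hl hws
    rw [evc (prog s.1 ws) m (fun w => y (clg k n (2 ^ a) o w))
      (fun w => y' (clg k n (2 ^ a) o w)) hsh]
    intro w hw
    exact hy _ (low_clg h1 h3 h2 hn o s w m hm hw)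
  · intro s
    exact (h3 n a hn).2 s
  · intro s T e P
    simp only [accG, decide_eq_true_eq]

end Pool.Agent.H48.OQ.FMG
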