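import Pool.Agent.H70.OQ.Targets

/-!
Module FNG: the limit of the stages.
-/

set_option autoImplicit false

namespace Pool.Agent.H48.OQ.FNG

open Finset Filter Pool.Agent.H6.NB Pool.Agent.H70.OQ

/-- the seeds from which all keys can be read, with a bound -/
abbrev St (k : ℕ) : Type :=
  {p : (List Bool → Bool) × ℕ // (∀ s, Dec p.1 s) ∧ OneSpecial k p.1}

theorem bas_ne_key (u s' : List Bool) : false :: u ≠ key s' := by
  intro h
  unfold key at h
  have := (List.cons.inj h).1
  exact absurd this (by decide)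

/-- if `σ` agrees with oracles having `OneSpecial`, up to any length, then it has `OneSpecial` -/
theorem oneSpecial_of_local (hS : T_SPC) {k : ℕ} {σ : List Bool → Bool}
    (h : ∀ l : ℕ, ∃ σ' : List Bool → Bool, OneSpecial k σ' ∧
      ∀ w : List Bool, w.length + 1 ≤ l → σ (false :: w) = σ' (false :: w)) :
    OneSpecial k σ := by
  intro n
  obtain ⟨σ', h1, h2⟩ := h ((2 ^ (k + 1) - 1) * n + 1)
  have h3 : ∀ u : List Bool, u.length = n → (Special k σ u ↔ Special k σ' u) := by
    intro u hu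
    refine hS k σ σ' u (fun w hw => h2 w ?_)
    rw [hw, hu]
  obtain ⟨u, ⟨hu, hv⟩, huniq⟩ := h1 n
  refine ⟨u, ⟨hu, (h3 u hu).2 hv⟩, ?_⟩
  rintro u' ⟨hu', hv'⟩
  exact huniq u' ⟨hu', (h3 u' hu').1 hv'⟩

theorem fng (h1 : T_SGG) (h2 : T_BLG) (_h3 : T_BUG) (h4 : T_LAK) (h5 : Pool.Agent.H6.NB.T_DCC)
    (h6 : T_ING) (h7 : T_SPC) : T_FNG := by
  intro k prog hS Q hQ
  obtain ⟨σ₀, hσ₀, hσ₀'⟩ := h6 (k + 1)
  -- one stage
  have step : ∀ (j : ℕ) (st : St (k + 1)), ∃ (n m : ℕ) (σ : List Bool → Bool),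
      st.1.2 < n ∧ j ≤ n ∧
      (∀ w, w.length < n → σ w = st.1.1 w) ∧ ((∀ s, Dec σ s) ∧ OneSpecial (k + 1) σ) ∧
      ∀ σ' O, (∀ w, w.length ≤ m → σ' w = σ w) → Bldg (acck (k + 1) prog) σ' O →
        ¬ Correct (Q (Nat.unpair j).1 (List.replicate n false)) O (hlang (k + 1) O)
          (List.replicate n false) := by
    intro j st
    obtain ⟨c, C, ε, hε, hk⟩ := hQ (Nat.unpair j).1
    have ev := h1 k c C ε hε prog hS
    have ev2 : ∀ᶠ n : ℕ in atTop, st.1.2 < n ∧ j ≤ n :=
      (eventually_gt_atTop _).and (eventually_ge_atTop _)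
    obtain ⟨n, hn, hn1, hn2⟩ := (ev.and ev2).exists
    obtain ⟨hs, ht⟩ := hk (List.replicate n false)
    rw [List.length_replicate] at hs ht
    obtain ⟨σ, m, a1, a2, a2', a3⟩ :=
      hn (Q (Nat.unpair j).1 (List.replicate n false)) hs ht st.1.1 st.2.1 st.2.2
    exact ⟨n, m, σ, hn1, hn2, a1, ⟨a2, a2'⟩, a3⟩
  choose nn mm ss p1 p2 p3 p4 p5 using step
  let st : ℕ → St (k + 1) := fun j => Nat.rec ⟨(σ₀, 0), hσ₀, hσ₀'⟩
    (fun j s => ⟨(ss j s, max (nn j s) (mm j s)), p4 j s⟩) j
  have hst : ∀ j, st (j + 1) = ⟨(ss j (st j), max (nn j (st j)) (mm j (st j))), p4 j (st j)⟩ :=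
    fun j => rfl
  set σs : ℕ → List Bool → Bool := fun j => (st j).1.1 with hσs
  set n : ℕ → ℕ := fun j => nn j (st j) with hn
  set m : ℕ → ℕ := fun j => mm j (st j) with hm
  have f1 : ∀ j w, w.length < n j → σs (j + 1) w = σs j w := by
    intro j w hw
    exact p3 j (st j) w hw
  have f2 : ∀ j, n j < n (j + 1) := by
    intro j
    have := p1 (j + 1) (st (j + 1))
    rw [hst] at this
    exact lt_of_le_of_lt (le_max_left _ _) this
  have f3 : ∀ j, m j < n (j + 1) := by
    intro j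
    have := p1 (j + 1) (st (j + 1))
    rw [hst] at this
    exact lt_of_le_of_lt (le_max_right _ _) this
  have f4 : ∀ j, j ≤ n j := fun j => p2 j (st j)
  have hmono : StrictMono n := strictMono_nat_of_lt_succ f2
  have f5 : ∀ j i w, j ≤ i → w.length < n j → σs i w = σs j w := by
    intro j i w hji hw
    induction i, hji using Nat.le_induction with
    | base => rfl
    | succ i hi ih =>
      rw [f1 i w (lt_of_lt_of_le hw (hmono.monotone hi)), ih]
  let σ : List Bool → Bool := fun w => σs (w.length + 1) w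
  have f6 : ∀ j w, w.length < n j → σ w = σs j w := by
    intro j w hw
    change σs (w.length + 1) w = σs j w
    rcases le_total j (w.length + 1) with h | h
    · exact f5 j _ w h hw
    · exact (f5 (w.length + 1) j w h (lt_of_lt_of_le (Nat.lt_succ_self _) (f4 _))).symm
  obtain ⟨O, hO⟩ := h2 (acck (k + 1) prog) (h4 (k + 1) prog hS) σ
  have hOb : ∀ u, O (false :: u) = σ (false :: u) := by
    intro u
    rw [hO (false :: u)]
    have : ¬ ∃ s, false :: u = key s ∧ acck (k + 1) prog s O := by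
      rintro ⟨s, h, -⟩
      exact bas_ne_key _ _ h
    simp [this]
  refine ⟨σ, O, hO, ?_, ?_, ?_⟩
  · intro s
    obtain ⟨l, hl⟩ := h5 s
    have : Dec (σs (l + 1)) s := (st (l + 1)).2.1 s
    refine (hl σ (σs (l + 1)) fun w hw => f6 (l + 1) w ?_).2 this
    have := f4 (l + 1)
    omega
  · refine oneSpecial_of_local h7 fun l => ⟨σs (l + 1), (st (l + 1)).2.2, ?_⟩
    intro w hw
    rw [hOb]
    refine f6 (l + 1) _ ?_
    rw [List.length_cons]
    have := f4 (l + 1)
    omega
  · intro i M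
    refine ⟨n (Nat.pair i M), le_trans (Nat.right_le_pair i M) (f4 _), ?_⟩
    have key := p5 (Nat.pair i M) (st (Nat.pair i M)) σ O (fun w hw => ?_) hO
    · rw [Nat.unpair_pair] at key
      exact key
    · have := f6 (Nat.pair i M + 1) w (lt_of_le_of_lt hw (f3 _))
      exact this

end Pool.Agent.H48.OQ.FNG
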